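import Mathlib
import Pool.Agent.X300.KT.Sep
import Pool.Agent.Y126.Notions
import Pool.Agent.H204R3.SP.Descent

/-!
# The cohomology of the powers of an abelian variety
-/

set_option linter.unusedSectionVars false

namespace Pool.Agent.X300.TB

open Module TensorProduct Pool.Agent.H204R3.SP
open Pool.Agent.Y126.Notions (diagonal extend)

noncomputable section

variable {k W Γ : Type} [Field k] [AddCommGroup W] [Module k W] [Group Γ]

/-- The pullback of alternating forms. -/
def pull {N : Type} [AddCommGroup N] [Module k N] (j : ℕ) (T : Module.End k N) :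
    Module.End k (N [⋀^Fin j]→ₗ[k] k) where
  toFun g := g.compLinearMap T
  map_add' _ _ := rfl
  map_smul' _ _ := rfl

theorem pull_one {N : Type} [AddCommGroup N] [Module k N] (j : ℕ) :
    pull j (1 : Module.End k N) = 1 := rfl

theorem pull_mul {N : Type} [AddCommGroup N] [Module k N] (j : ℕ) (T T' : Module.End k N) :
    pull j (T * T') = pull j T' * pull j T := rfl

theorem coh_one (τ : Representation k Γ W) (q j : ℕ) : pull j (diagonal τ q (1 : Γ)⁻¹) = 1 := by
  rw [inv_one, map_one, pull_one]

theorem coh_mul (τ : Representation k Γ W) (q j : ℕ) (s t : Γ) :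
    pull j (diagonal τ q (s * t)⁻¹) = pull j (diagonal τ q s⁻¹) * pull j (diagonal τ q t⁻¹) := by
  rw [mul_inv_rev, map_mul, pull_mul]

/-- The action of the Galois group on `H^j(B^q)`, that is on the alternating forms in `j` variables
on `W ^ q`, where `W` is the rational Tate module of `B`. -/
def coh (τ : Representation k Γ W) (q j : ℕ) :
    Representation k Γ ((Fin q → W) [⋀^Fin j]→ₗ[k] k) where
  toFun s := pull j (diagonal τ q s⁻¹)
  map_one' := coh_one τ q j
  map_mul' := coh_mul τ q j

theorem coh_apply (τ : Representation k Γ W) (q j : ℕ) (s : Γ)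
    (g : (Fin q → W) [⋀^Fin j]→ₗ[k] k) (v : Fin j → Fin q → W) :
    coh τ q j s g v = g (fun l i => τ s⁻¹ (v l i)) := rfl

instance [FiniteDimensional k W] (q j : ℕ) :
    FiniteDimensional k ((Fin q → W) [⋀^Fin j]→ₗ[k] k) :=
  Module.Finite.of_injective
    (AlternatingMap.toMultilinearMapLM (R := k) (S := k) (M := Fin q → W) (N := k) (ι := Fin j))
    (fun _ _ h => AlternatingMap.coe_multilinearMap_injective h)

theorem finite_order (τ : Representation k Γ W) (q j : ℕ) (γ : Γ) {r : ℕ} (h : τ γ ^ r = 1) :
    coh τ q j γ ^ r = 1 := by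
  have h1 : τ (γ ^ r)⁻¹ = 1 := by
    have h2 : τ (γ ^ r)⁻¹ * τ (γ ^ r) = 1 := by rw [← map_mul, inv_mul_cancel, map_one]
    rwa [map_pow, h, mul_one] at h2
  rw [← map_pow]
  ext g v
  rw [coh_apply, h1]
  rfl

end

end Pool.Agent.X300.TB
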