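import Mathlib
import Pool.Agent.X300.TB.Coh
import Pool.Agent.H204R3.GP.DescentG

/-!
# The eigenvalues on the cohomology of the powers of an abelian variety
-/

set_option linter.unusedSectionVars false

namespace Pool.Agent.X300.TB

open Module TensorProduct Pool.Agent.H204R3.SP Pool.Agent.H204R3.GP
open Pool.Agent.Y126.Notions (diagonal extend)

noncomputable section

variable {k N Γ : Type} [Field k] [CharZero k] [AddCommGroup N] [Module k N]
  [FiniteDimensional k N] [Group Γ] {K : Type} [Field K] [CharZero K] [Algebra k K] [IsAlgClosed K]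

section ev

variable (K) {j : ℕ}

/-- Evaluation. -/
def Ev (v : Fin j → N) : K ⊗[k] (N [⋀^Fin j]→ₗ[k] k) →ₗ[k] K :=
  TensorProduct.lift (LinearMap.mk₂ k (fun (c : K) (g : N [⋀^Fin j]→ₗ[k] k) => g v • c)
    (fun c c' g => smul_add _ _ _)
    (fun a c g => smul_comm _ _ _)
    (fun c g g' => by rw [AlternatingMap.add_apply, add_smul])
    (fun a c g => by rw [AlternatingMap.smul_apply, smul_eq_mul, mul_smul]))

theorem Ev_tmul (v : Fin j → N) (c : K) (g : N [⋀^Fin j]→ₗ[k] k) :
    Ev K v (c ⊗ₜ g) = g v • c := rfl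

theorem Ev_smul (v : Fin j → N) (c : K) (y : K ⊗[k] (N [⋀^Fin j]→ₗ[k] k)) :
    Ev K v (c • y) = c * Ev K v y := by
  induction y with
  | zero => simp only [smul_zero, map_zero, mul_zero]
  | add a b ha hb => simp only [smul_add, map_add, ha, hb, mul_add]
  | tmul a g => rw [TensorProduct.smul_tmul', Ev_tmul, Ev_tmul, smul_eq_mul, mul_smul_comm]

theorem Ev_base (S : Module.End k N) (A : Module.End k (N [⋀^Fin j]→ₗ[k] k))
    (hA : ∀ g v, A g v = g (fun l => S (v l))) (v : Fin j → N)
    (y : K ⊗[k] (N [⋀^Fin j]→ₗ[k] k)) :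
    Ev K v (A.baseChange K y) = Ev K (fun l => S (v l)) y := by
  induction y with
  | zero => simp only [map_zero]
  | add a b ha hb => simp only [map_add, ha, hb]
  | tmul a g => rw [LinearMap.baseChange_tmul, Ev_tmul, Ev_tmul, hA]

/-- The eigenvalues on the alternating forms are products. -/
theorem eig_alt (R0 : Representation k Γ N) (F : Γ) (A : Module.End k (N [⋀^Fin j]→ₗ[k] k))
    (hA : ∀ g v, A g v = g (fun l => R0 F⁻¹ (v l))) (s : K)
    (hs : Module.End.HasEigenvalue (A.baseChange K) s) :
    ∃ a : Fin j → Kˣ, (∀ l, Module.End.HasEigenvalue (extend K R0 F) (a l : K)) ∧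
      s * ∏ l, (a l : K) = 1 := by
  classical
  obtain ⟨y, hy1, hy0⟩ := hs.exists_hasEigenvector
  have hy := Module.End.mem_eigenspace_iff.1 hy1
  let b := finBasis k N
  let w := Basis.ofVectorSpace k K
  let cmp := TensorProduct.equivFinsuppOfBasisLeft (N := N [⋀^Fin j]→ₗ[k] k) w
  let Ψ : MultilinearMap K (fun _ : Fin j => K ⊗[k] N) K :=
    ∑ i ∈ (cmp y).support, w i • bcm (Ω := K) b (cmp y i).toMultilinearMap
  have hyc : y = ∑ i ∈ (cmp y).support, w i ⊗ₜ[k] cmp y i := by
    conv_lhs => rw [← cmp.symm_apply_apply y]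
    rw [TensorProduct.equivFinsuppOfBasisLeft_symm_apply]
    rfl
  have hEv : ∀ v, Ev K v y = ∑ i ∈ (cmp y).support, cmp y i v • w i := by
    intro v
    conv_lhs => rw [hyc]
    rw [map_sum]
    rfl
  have hΨ : ∀ v, Ψ (fun l => (1 : K) ⊗ₜ[k] v l) = Ev K v y := by
    intro v
    rw [hEv, MultilinearMap.sum_apply]
    refine Finset.sum_congr rfl fun i _ => ?_
    rw [MultilinearMap.smul_apply, bcm_one, smul_eq_mul, Algebra.smul_def, mul_comm]
    rfl
  have hΨ0 : Ψ ≠ 0 := by
    intro h0
    apply hy0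
    rw [hyc]
    refine Finset.sum_eq_zero fun i hi => ?_
    have h1 : cmp y i = 0 := by
      ext v
      have h2 := hΨ v
      rw [h0, MultilinearMap.zero_apply, hEv] at h2
      have h3 := (linearIndependent_iff'.1 w.linearIndependent) _ _ h2.symm i hi
      rw [h3]
      rfl
    rw [h1, TensorProduct.tmul_zero]
  have hs0 : s ≠ 0 := by
    rintro rfl
    apply hΨ0
    refine Basis.ext_multilinear (fun _ => b.baseChange K) fun I => ?_
    have h1 : (fun l => b.baseChange K (I l)) = fun l => (1 : K) ⊗ₜ[k] b (I l) := by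
      funext l
      rw [Basis.baseChange_apply]
    rw [h1, hΨ, MultilinearMap.zero_apply]
    have h2 := Ev_base K (R0 F⁻¹) A hA (fun l => R0 F (b (I l))) y
    rw [hy, zero_smul, map_zero] at h2
    have h3 : (fun l => R0 F⁻¹ (R0 F (b (I l)))) = fun l => b (I l) := by
      funext l
      rw [← Module.End.mul_apply, ← map_mul, inv_mul_cancel, map_one, Module.End.one_apply]
    rw [h3] at h2
    exact h2.symm
  have hΨT : ∀ x, Ψ (fun l => (extend K R0 F ^ 1) (x l)) = (s⁻¹ • (1 : Module.End K K)) (Ψ x) := by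
    intro x
    have h4 : Ψ.compLinearMap (fun _ => extend K R0 F) = s⁻¹ • Ψ := by
      refine Basis.ext_multilinear (fun _ => b.baseChange K) fun I => ?_
      have h1 : (fun l => b.baseChange K (I l)) = fun l => (1 : K) ⊗ₜ[k] b (I l) := by
        funext l
        rw [Basis.baseChange_apply]
      rw [h1, MultilinearMap.smul_apply, hΨ, MultilinearMap.compLinearMap_apply]
      have h2 : (fun l => extend K R0 F ((1 : K) ⊗ₜ[k] b (I l))) =
          fun l => (1 : K) ⊗ₜ[k] R0 F (b (I l)) := rfl
      rw [h2, hΨ]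
      have h3 := Ev_base K (R0 F⁻¹) A hA (fun l => R0 F (b (I l))) y
      have h5 : (fun l => R0 F⁻¹ (R0 F (b (I l)))) = fun l => b (I l) := by
        funext l
        rw [← Module.End.mul_apply, ← map_mul, inv_mul_cancel, map_one, Module.End.one_apply]
      rw [h5, hy, Ev_smul] at h3
      rw [← h3, smul_eq_mul, ← mul_assoc, inv_mul_cancel₀ hs0, one_mul]
    have h5 := congrArg (fun G : MultilinearMap K (fun _ : Fin j => K ⊗[k] N) K => G x) h4
    simp only [pow_one]
    exact h5
  -- generalised eigenvectors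
  obtain ⟨n, e, a, he⟩ := Pool.Agent.X300.KT.exists_gen_basis (extend K R0) F
  obtain ⟨J, hJ⟩ : ∃ J : Fin j → Fin n, Ψ (fun l => e (J l)) ≠ 0 := by
    by_contra hcon
    push Not at hcon
    refine hΨ0 (Basis.ext_multilinear (fun _ => e) fun J => ?_)
    rw [hcon, MultilinearMap.zero_apply]
  refine ⟨fun l => a (J l), fun l => ?_, ?_⟩
  · obtain ⟨m, hm⟩ := (Module.End.mem_maxGenEigenspace _ _ _).1 (he (J l))
    have h1 : Module.End.HasGenEigenvalue (extend K R0 F) (a (J l) : K) m := by
      intro h2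
      have h3 : e (J l) ∈ Module.End.genEigenspace (extend K R0 F) (a (J l) : K) m :=
        Module.End.mem_genEigenspace_nat.2 hm
      rw [h2, Submodule.mem_bot] at h3
      exact e.ne_zero _ h3
    exact Module.End.hasEigenvalue_of_hasGenEigenvalue h1
  · obtain ⟨z, hz, hz0⟩ : ∃ z : K, (s⁻¹ • (1 : Module.End K K)) z =
        (∏ l, (a (J l) : K) ^ 1) • z ∧ z ≠ 0 := by
      by_contra hcon
      push Not at hcon
      choose m hm using fun l => (Module.End.mem_maxGenEigenspace _ _ _).1 (he (J l))
      exact hJ (Pool.Agent.X300.KT.gen_joint (extend K R0 F) (s⁻¹ • (1 : Module.End K K)) 1 Ψ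
        (fun l => (a (J l) : K)) hΨT hcon _ _ m hm rfl)
    rw [LinearMap.smul_apply, Module.End.one_apply, smul_eq_mul, smul_eq_mul] at hz
    have h1 := mul_right_cancel₀ hz0 hz
    simp only [pow_one] at h1
    rw [← h1, mul_inv_cancel₀ hs0]

end ev

section power

variable {W : Type} [AddCommGroup W] [Module k W]

/-- The eigenvalues on a power. -/
theorem eig_power (τ : Representation k Γ W) (q : ℕ) (F : Γ) (a : K)
    (h : Module.End.HasEigenvalue (extend K (diagonal τ q) F) a) :
    Module.End.HasEigenvalue (extend K τ F) a := by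
  classical
  obtain ⟨x, hx1, hx0⟩ := h.exists_hasEigenvector
  have hx := Module.End.mem_eigenspace_iff.1 hx1
  let pr : Fin q → K ⊗[k] (Fin q → W) →ₗ[K] K ⊗[k] W := fun i =>
    (LinearMap.proj (φ := fun _ : Fin q => W) i).baseChange K
  let sg : Fin q → K ⊗[k] W →ₗ[K] K ⊗[k] (Fin q → W) := fun i =>
    (LinearMap.single k (fun _ : Fin q => W) i).baseChange K
  have h1 : ∀ z, z = ∑ i, sg i (pr i z) := by
    intro z
    induction z with
    | zero => simp only [map_zero, Finset.sum_const_zero]
    | add z z' hz hz' =>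
      simp only [map_add, Finset.sum_add_distrib]
      rw [← hz, ← hz']
    | tmul c v =>
      have h2 : ∀ i, sg i (pr i (c ⊗ₜ v)) = c ⊗ₜ[k] (Pi.single i (v i) : Fin q → W) := fun i => rfl
      rw [Finset.sum_congr rfl fun i _ => h2 i, ← TensorProduct.tmul_sum]
      congr 1
      exact (Finset.univ_sum_single v).symm
  obtain ⟨i, hi⟩ : ∃ i, pr i x ≠ 0 := by
    by_contra hcon
    push Not at hcon
    apply hx0
    rw [h1 x]
    exact Finset.sum_eq_zero fun i _ => by rw [hcon, map_zero]
  have h2 : ∀ z, pr i (extend K (diagonal τ q) F z) = extend K τ F (pr i z) := by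
    intro z
    induction z with
    | zero => simp only [map_zero]
    | add z z' hz hz' => simp only [map_add, hz, hz']
    | tmul c v => rfl
  refine Module.End.hasEigenvalue_of_hasEigenvector ⟨Module.End.mem_eigenspace_iff.2 ?_, hi⟩
  rw [← h2, hx, map_smul]

/-- The values of an additive function on the eigenvalues on the cohomology. -/
theorem half_slope [FiniteDimensional k W] (τ : Representation k Γ W) (q j : ℕ) (F : Γ)
    (w : Additive Kˣ →+ K) (c : Kˣ)
    (h : ∀ a : Kˣ, Module.End.HasEigenvalue (extend K τ F) (a : K) →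
      2 * w (Additive.ofMul a) = w (Additive.ofMul c)) (s : Kˣ)
    (hs : Module.End.HasEigenvalue (extend K (coh τ q j) F) (s : K)) :
    2 * w (Additive.ofMul s) + j * w (Additive.ofMul c) = 0 := by
  obtain ⟨a, ha, h1⟩ := eig_alt K (diagonal τ q) F (coh τ q j F) (fun g v => rfl) (s : K) hs
  have h2 : s * ∏ l, a l = 1 := by
    apply Units.ext
    rw [Units.val_mul, Units.coe_prod, h1, Units.val_one]
  have h3 := congrArg (fun x : Kˣ => w (Additive.ofMul x)) h2
  simp only [ofMul_mul, map_add, ofMul_prod, map_sum, ofMul_one, map_zero] at h3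
  have h4 : ∀ l, 2 * w (Additive.ofMul (a l)) = w (Additive.ofMul c) := fun l =>
    h (a l) (eig_power τ q F _ (ha l))
  have h5 : ∑ l, 2 * w (Additive.ofMul (a l)) = j * w (Additive.ofMul c) := by
    rw [Finset.sum_congr rfl fun l _ => h4 l, Finset.sum_const, Finset.card_univ, Fintype.card_fin,
      nsmul_eq_mul]
  rw [← Finset.mul_sum] at h5
  linear_combination 2 * h3 - h5

end power

end

end Pool.Agent.X300.TB
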